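import Pool.Agent.H73.PHS.Stmts

/-! Row HOM of the board phs (MP_e1af46_an). -/

set_option autoImplicit false

open Set Filter Topology MeasureTheory Metric

namespace Pool.PHS

section
variable {E : Type} [NormedAddCommGroup E] [NormedSpace ℝ E] [FiniteDimensional ℝ E] {ι : Type}
  [Fintype ι] [DecidableEq ι]

theorem HOM_detc (b : Module.Basis ι ℝ E) : Continuous fun v : ι → E => b.det v := by
  have h : (fun v : ι → E => b.det v) = fun v => (b.toMatrix v).det := by
    funext v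
    rw [Module.Basis.det_apply]
  rw [h]
  apply Continuous.matrix_det
  refine continuous_matrix fun i j => ?_
  have h1 : Continuous (b.coord i) := (b.coord i).continuous_of_finiteDimensional
  exact h1.comp (continuous_apply j)

omit [FiniteDimensional ℝ E] in
theorem HOM_det (b : Module.Basis ι ℝ E) (A : E →L[ℝ] E) :
    A.det = b.det (fun i => A (b i)) := by
  have h := b.det_comp (A : E →ₗ[ℝ] E) b
  rw [b.det_self, mul_one] at h
  exact h.symm

/-- the integrand -/
noncomputable def HOMW (b : Module.Basis ι ℝ E) (G H : E → E) (ψ : E → ℝ) (t : ℝ) (z : E) : ℝ :=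
  ψ (G z + t • H z) * b.det (fun i => fderiv ℝ G z (b i) + t • fderiv ℝ H z (b i))

/-- its derivative in `t` -/
noncomputable def HOMV (b : Module.Basis ι ℝ E) (G H : E → E) (ψ : E → ℝ) (t : ℝ) (z : E) : ℝ :=
  fderiv ℝ ψ (G z + t • H z) (H z) *
      b.det (fun i => fderiv ℝ G z (b i) + t • fderiv ℝ H z (b i)) +
    ψ (G z + t • H z) * ∑ j, b.det (Function.update
      (fun i => fderiv ℝ G z (b i) + t • fderiv ℝ H z (b i)) j (fderiv ℝ H z (b j)))

theorem HOM_deriv (h1 : DVDStmt) (b : Module.Basis ι ℝ E) (G H : E → E) (ψ : E → ℝ)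
    (hψ : ContDiff ℝ 1 ψ) (t : ℝ) (z : E) :
    HasDerivAt (fun s => HOMW b G H ψ s z) (HOMV b G H ψ t z) t :=
  h1 E ι b ψ (G z) (H z) (fun i => fderiv ℝ G z (b i)) (fun i => fderiv ℝ H z (b i)) t hψ

theorem HOM_cont (b : Module.Basis ι ℝ E) (G H : E → E) (ψ : E → ℝ) (U : Set E) (hU : IsOpen U)
    (hG : ContDiffOn ℝ 2 G U) (hH : ContDiffOn ℝ 2 H U) (hψ : ContDiff ℝ 1 ψ) :
    ContinuousOn (fun q : ℝ × E => HOMV b G H ψ q.1 q.2) (univ ×ˢ U) ∧
    ∀ t, ContinuousOn (HOMW b G H ψ t) U := by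
  have hGc : ContinuousOn G U := hG.continuousOn
  have hHc : ContinuousOn H U := hH.continuousOn
  have hG' : ContinuousOn (fderiv ℝ G) U :=
    hG.continuousOn_fderiv_of_isOpen hU (by norm_num)
  have hH' : ContinuousOn (fderiv ℝ H) U :=
    hH.continuousOn_fderiv_of_isOpen hU (by norm_num)
  have hψ' : Continuous (fderiv ℝ ψ) := hψ.continuous_fderiv (by norm_num)
  have hsnd : MapsTo (Prod.snd : ℝ × E → E) (univ ×ˢ U) U := fun q hq => hq.2
  have c1 : ContinuousOn (fun q : ℝ × E => G q.2) (univ ×ˢ U) :=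
    hGc.comp continuousOn_snd hsnd
  have c2 : ContinuousOn (fun q : ℝ × E => H q.2) (univ ×ˢ U) :=
    hHc.comp continuousOn_snd hsnd
  have c3 : ContinuousOn (fun q : ℝ × E => fderiv ℝ G q.2) (univ ×ˢ U) :=
    hG'.comp continuousOn_snd hsnd
  have c4 : ContinuousOn (fun q : ℝ × E => fderiv ℝ H q.2) (univ ×ˢ U) :=
    hH'.comp continuousOn_snd hsnd
  have ct : ContinuousOn (fun q : ℝ × E => q.1) (univ ×ˢ U) := continuousOn_fst
  have c5 : ContinuousOn (fun q : ℝ × E => G q.2 + q.1 • H q.2) (univ ×ˢ U) :=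
    c1.add (ct.smul c2)
  have c6 : ∀ i, ContinuousOn (fun q : ℝ × E => fderiv ℝ H q.2 (b i)) (univ ×ˢ U) :=
    fun i => c4.clm_apply continuousOn_const
  have c7 : ∀ i, ContinuousOn (fun q : ℝ × E => fderiv ℝ G q.2 (b i) +
      q.1 • fderiv ℝ H q.2 (b i)) (univ ×ˢ U) :=
    fun i => (c3.clm_apply continuousOn_const).add (ct.smul (c6 i))
  have c8 : ContinuousOn (fun q : ℝ × E => b.det (fun i => fderiv ℝ G q.2 (b i) +
      q.1 • fderiv ℝ H q.2 (b i))) (univ ×ˢ U) :=
    (HOM_detc b).comp_continuousOn (continuousOn_pi.2 c7)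
  have c9 : ∀ j, ContinuousOn (fun q : ℝ × E => b.det (Function.update
      (fun i => fderiv ℝ G q.2 (b i) + q.1 • fderiv ℝ H q.2 (b i)) j (fderiv ℝ H q.2 (b j))))
      (univ ×ˢ U) := by
    intro j
    refine (HOM_detc b).comp_continuousOn (continuousOn_pi.2 fun i => ?_)
    by_cases h : i = j
    · subst h
      simpa using c6 i
    · simpa [Function.update_of_ne h] using c7 i
  have hV : ContinuousOn (fun q : ℝ × E => HOMV b G H ψ q.1 q.2) (univ ×ˢ U) := by
    unfold HOMV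
    refine ContinuousOn.add ?_ ?_
    · exact ((hψ'.comp_continuousOn c5).clm_apply c2).mul c8
    · exact (hψ.continuous.comp_continuousOn c5).mul (continuousOn_finsetSum _ fun j _ => c9 j)
  refine ⟨hV, fun t => ?_⟩
  have hW : ContinuousOn (fun q : ℝ × E => HOMW b G H ψ q.1 q.2) (univ ×ˢ U) := by
    unfold HOMW
    exact (hψ.continuous.comp_continuousOn c5).mul c8
  have hmap : MapsTo (fun z : E => (t, z)) U (univ ×ˢ U) := fun z hz => ⟨mem_univ _, hz⟩
  exact hW.comp (continuousOn_const.prodMk continuousOn_id) hmap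

end

theorem HOM_thm (h1 : DVDStmt) (h2 : HDZStmt) : HOMStmt := by
  intro E _ _ _ _ _ μ _ G H ψ U Q hU hG hH hψ hψ0 hQ hQU hvan
  let b := Module.finBasis ℝ E
  obtain ⟨hVc, hWc⟩ := HOM_cont b G H ψ U hU hG hH hψ
  have hUm : MeasurableSet U := hU.measurableSet
  have hQm : MeasurableSet Q := hQ.measurableSet
  -- vanishing off `Q`
  have hz0 : ∀ t ∈ Icc (0 : ℝ) 1, ∀ z ∈ U \ Q, ψ (G z + t • H z) = 0 := by
    intro t ht z hz
    by_contra h
    exact hz.2 (hvan t ht z hz.1 h)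
  have hW0 : ∀ t ∈ Icc (0 : ℝ) 1, ∀ z ∈ U \ Q, HOMW b G H ψ t z = 0 := by
    intro t ht z hz
    unfold HOMW
    rw [hz0 t ht z hz, zero_mul]
  have hV0 : ∀ t ∈ Icc (0 : ℝ) 1, ∀ z ∈ U \ Q, HOMV b G H ψ t z = 0 := by
    intro t ht z hz
    have h3 := hz0 t ht z hz
    have h4 : fderiv ℝ ψ (G z + t • H z) = 0 := by
      apply IsLocalMin.fderiv_eq_zero
      exact Eventually.of_forall fun x => by rw [h3]; exact hψ0 x
    unfold HOMV
    rw [h3, h4]
    simp
  have hWQ : ∀ t ∈ Icc (0 : ℝ) 1, ∫ z in U, HOMW b G H ψ t z ∂μ =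
      ∫ z in Q, HOMW b G H ψ t z ∂μ := fun t ht =>
    setIntegral_eq_of_subset_of_forall_sdiff_eq_zero hUm hQU (hW0 t ht)
  have hVQ : ∀ t ∈ Icc (0 : ℝ) 1, ∫ z in U, HOMV b G H ψ t z ∂μ =
      ∫ z in Q, HOMV b G H ψ t z ∂μ := fun t ht =>
    setIntegral_eq_of_subset_of_forall_sdiff_eq_zero hUm hQU (hV0 t ht)
  -- the derivative of the integral over `Q`
  have hder : ∀ t : ℝ, HasDerivAt (fun s => ∫ z in Q, HOMW b G H ψ s z ∂μ)
      (∫ z in Q, HOMV b G H ψ t z ∂μ) t := by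
    intro t
    have hK : IsCompact (Icc (t - 1) (t + 1) ×ˢ Q) := isCompact_Icc.prod hQ
    have hKc : ContinuousOn (fun q : ℝ × E => HOMV b G H ψ q.1 q.2) (Icc (t - 1) (t + 1) ×ˢ Q) :=
      hVc.mono (prod_mono (subset_univ _) hQU)
    obtain ⟨C, hC⟩ := hK.exists_bound_of_continuousOn hKc
    have hsc : ContinuousOn (HOMV b G H ψ t) Q := by
      have hmap : MapsTo (fun z : E => (t, z)) Q (univ ×ˢ U) := fun z hz => ⟨mem_univ _, hQU hz⟩
      exact hVc.comp (continuousOn_const.prodMk continuousOn_id) hmap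
    refine (hasDerivAt_integral_of_dominated_loc_of_deriv_le (s := Icc (t - 1) (t + 1))
      (bound := fun _ => C) (F := fun s z => HOMW b G H ψ s z)
      (F' := fun s z => HOMV b G H ψ s z) ?_ ?_ ?_ ?_ ?_ ?_ ?_).2
    · exact Icc_mem_nhds (by linarith) (by linarith)
    · exact Eventually.of_forall fun s => ((hWc s).mono hQU).aestronglyMeasurable hQm
    · exact ((hWc t).mono hQU).integrableOn_compact hQ
    · exact hsc.aestronglyMeasurable hQm
    · refine (ae_restrict_iff' hQm).2 (Eventually.of_forall fun z hz s hs => ?_)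
      exact hC (s, z) ⟨hs, hz⟩
    · have : IsFiniteMeasure (μ.restrict Q) := ⟨by
        rw [Measure.restrict_apply_univ]
        exact hQ.measure_lt_top⟩
      exact integrable_const C
    · exact Eventually.of_forall fun z s _ => HOM_deriv h1 b G H ψ hψ s z
  -- the derivative is zero
  have hzero : ∀ t ∈ Icc (0 : ℝ) 1, ∫ z in Q, HOMV b G H ψ t z ∂μ = 0 := by
    intro t ht
    rw [← hVQ t ht]
    have hGt : ContDiffOn ℝ 2 (fun y => G y + t • H y) U := hG.add (hH.const_smul t)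
    have h3 := h2 E μ (Fin (Module.finrank ℝ E)) b (fun y => G y + t • H y) H ψ U Q hU hGt hH hψ
      hψ0 hQ hQU (fun z hz => hvan t ht z hz)
    rw [← h3]
    refine setIntegral_congr_fun hUm fun z hz => ?_
    have hGd : DifferentiableAt ℝ G z :=
      (hG.contDiffAt (hU.mem_nhds hz)).differentiableAt (by norm_num)
    have hHd : DifferentiableAt ℝ H z :=
      (hH.contDiffAt (hU.mem_nhds hz)).differentiableAt (by norm_num)
    have h4 : fderiv ℝ (fun y => G y + t • H y) z = fderiv ℝ G z + t • fderiv ℝ H z := by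
      have h5 : DifferentiableAt ℝ (fun y => t • H y) z := hHd.const_smul t
      rw [fderiv_fun_add hGd h5, fderiv_fun_const_smul hHd]
    simp only [h4]
    rfl
  have hconst : ∀ t ∈ Icc (0 : ℝ) 1, (∫ z in Q, HOMW b G H ψ t z ∂μ) =
      ∫ z in Q, HOMW b G H ψ 0 z ∂μ := by
    apply constant_of_has_deriv_right_zero
    · exact fun t _ => (hder t).continuousAt.continuousWithinAt
    · intro t ht
      have h3 := (hder t).hasDerivWithinAt (s := Ici t)
      rwa [hzero t ⟨ht.1, ht.2.le⟩] at h3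
  have h0 : ∫ z in U, ψ (G z) * (fderiv ℝ G z).det ∂μ = ∫ z in U, HOMW b G H ψ 0 z ∂μ := by
    refine setIntegral_congr_fun hUm fun z _ => ?_
    show ψ (G z) * (fderiv ℝ G z).det = HOMW b G H ψ 0 z
    unfold HOMW
    rw [HOM_det b]
    simp
  have h1' : ∫ z in U, ψ (G z + H z) * (fderiv ℝ (fun y => G y + H y) z).det ∂μ =
      ∫ z in U, HOMW b G H ψ 1 z ∂μ := by
    refine setIntegral_congr_fun hUm fun z hz => ?_
    have hGd : DifferentiableAt ℝ G z :=
      (hG.contDiffAt (hU.mem_nhds hz)).differentiableAt (by norm_num)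
    have hHd : DifferentiableAt ℝ H z :=
      (hH.contDiffAt (hU.mem_nhds hz)).differentiableAt (by norm_num)
    show ψ (G z + H z) * (fderiv ℝ (fun y => G y + H y) z).det = HOMW b G H ψ 1 z
    unfold HOMW
    rw [HOM_det b, fderiv_fun_add hGd hHd]
    simp
  have m0 : (0 : ℝ) ∈ Icc (0 : ℝ) 1 := ⟨le_rfl, zero_le_one⟩
  have m1 : (1 : ℝ) ∈ Icc (0 : ℝ) 1 := ⟨zero_le_one, le_rfl⟩
  rw [h0, h1', hWQ 0 m0, hWQ 1 m1, hconst 1 m1]

end Pool.PHS
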